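import Pool.Agent.N904.AP.Basic

/-!
# Project AP (MP_cc6c48_an, helper904), stage F: the orbit of the circle `Ct (1/2)` is neither closed
nor dense, and `Ct (1/2)` separates `LL`
-/

set_option autoImplicit false

open Set Filter Topology
open Pool.Agent.N904.AP

namespace Pool.Agent.N634.AP

theorem s5_pos : 0 < s5 := Real.sqrt_pos.2 (by norm_num)

theorem s5_sq : s5 ^ 2 = 5 := Real.sq_sqrt (by norm_num)

theorem s5_gt : 2 < s5 := by nlinarith [s5_sq, s5_pos]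

theorem s5_lt : s5 < 3 := by nlinarith [s5_sq, s5_pos]

theorem s5c_sq : (s5 : ℂ) ^ 2 = 5 := by exact_mod_cast s5_sq

theorem s5c_ne2 : (s5 : ℂ) ≠ 2 := by
  intro h
  have : s5 = 2 := by exact_mod_cast h
  linarith [s5_gt]

theorem s5c_ne2' : (s5 : ℂ) ≠ -2 := by
  intro h
  have : s5 = -2 := by exact_mod_cast h
  linarith [s5_gt]

theorem sg1_pos : sg g1 ((s5 : ℂ) : OnePoint ℂ) = ((-s5 : ℂ) : OnePoint ℂ) := by
  have h : (s5 : ℂ) ≠ g1.1 := s5c_ne2'
  rw [sg_coe h]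
  congr 1
  have h1 : (s5 : ℂ) - g1.1 ≠ 0 := sub_ne_zero.2 h
  show (-2 : ℂ) - 1 / ((s5 : ℂ) - (-2)) = _
  have h2 : (s5 : ℂ) - (-2) ≠ 0 := h1
  field_simp
  linear_combination s5c_sq

theorem sg1_neg : sg g1 ((-s5 : ℂ) : OnePoint ℂ) = ((s5 : ℂ) : OnePoint ℂ) := by
  rw [← sg1_pos, sg_sg]
  exact one_ne_zero

theorem sg2_pos : sg g2 ((s5 : ℂ) : OnePoint ℂ) = ((-s5 : ℂ) : OnePoint ℂ) := by
  have h : (s5 : ℂ) ≠ g2.1 := s5c_ne2
  rw [sg_coe h]
  congr 1
  have h1 : (s5 : ℂ) - g2.1 ≠ 0 := sub_ne_zero.2 h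
  show (2 : ℂ) - 1 / ((s5 : ℂ) - 2) = _
  have h2 : (s5 : ℂ) - 2 ≠ 0 := h1
  field_simp
  linear_combination s5c_sq

theorem sg2_neg : sg g2 ((-s5 : ℂ) : OnePoint ℂ) = ((s5 : ℂ) : OnePoint ℂ) := by
  rw [← sg2_pos, sg_sg]
  exact one_ne_zero

/-- words in the two special letters permute `√5`, `-√5` -/
theorem wd_special {l : List (ℂ × ℂ)} (h : ∀ a ∈ l, a = g1 ∨ a = g2) :
    (wd l ((s5 : ℂ) : OnePoint ℂ) = ((s5 : ℂ) : OnePoint ℂ) ∧
      wd l ((-s5 : ℂ) : OnePoint ℂ) = ((-s5 : ℂ) : OnePoint ℂ)) ∨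
    (wd l ((s5 : ℂ) : OnePoint ℂ) = ((-s5 : ℂ) : OnePoint ℂ) ∧
      wd l ((-s5 : ℂ) : OnePoint ℂ) = ((s5 : ℂ) : OnePoint ℂ)) := by
  induction l with
  | nil => exact Or.inl ⟨rfl, rfl⟩
  | cons a l ih =>
    have ih' := ih fun b hb => h b (by simp [hb])
    have ha : sg a ((s5 : ℂ) : OnePoint ℂ) = ((-s5 : ℂ) : OnePoint ℂ) ∧
        sg a ((-s5 : ℂ) : OnePoint ℂ) = ((s5 : ℂ) : OnePoint ℂ) := by
      rcases h a (by simp) with rfl | rfl
      · exact ⟨sg1_pos, sg1_neg⟩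
      · exact ⟨sg2_pos, sg2_neg⟩
    rcases ih' with ⟨h1, h2⟩ | ⟨h1, h2⟩
    · right
      rw [wd_cons, wd_cons, h1, h2]
      exact ha
    · left
      rw [wd_cons, wd_cons, h1, h2]
      exact ⟨ha.2, ha.1⟩

theorem norm_s5 : ‖(s5 : ℂ)‖ = s5 := by
  rw [Complex.norm_real, Real.norm_eq_abs, abs_of_pos s5_pos]

theorem pos_notMem : ((s5 : ℂ) : OnePoint ℂ) ∉ Ct (1 / 2) := by
  rintro (⟨h, _⟩ | ⟨z, hz, h⟩)
  · exact OnePoint.coe_ne_infty _ h
  · have : (s5 : ℂ) = z := OnePoint.coe_injective hz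
    rw [← this, norm_s5, s5_sq] at h
    have h2 : ‖(s5 : ℂ) + (s5 : ℂ)‖ = 2 * s5 := by
      rw [← two_mul, norm_mul, norm_s5]
      norm_num
    rw [h2] at h
    nlinarith [s5_sq]

theorem neg_mem : ((-s5 : ℂ) : OnePoint ℂ) ∈ Ct (1 / 2) := by
  right
  refine ⟨-s5, rfl, ?_⟩
  rw [norm_neg, norm_s5, s5_sq]
  simp

theorem pos_mem0 : ((s5 : ℂ) : OnePoint ℂ) ∈ Ct 0 := by
  right
  refine ⟨s5, rfl, ?_⟩
  rw [norm_s5, s5_sq]
  simp

theorem neg_mem0 : ((-s5 : ℂ) : OnePoint ℂ) ∈ Ct 0 := by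
  right
  refine ⟨-s5, rfl, ?_⟩
  rw [norm_neg, norm_s5, s5_sq]
  simp

theorem neg_mem_Dk : (-s5 : ℂ) ∈ Dk g1 := by
  unfold Dk
  rw [Metric.mem_closedBall, dist_eq_norm]
  have h1 : (-s5 : ℂ) - g1.1 = ((2 - s5 : ℝ) : ℂ) := by
    show (-s5 : ℂ) - (-2) = _
    push_cast
    ring
  have h2 : rad g1 = 1 := by
    unfold rad
    show Real.sqrt ‖(1 : ℂ)‖ = 1
    rw [norm_one, Real.sqrt_one]
  rw [h1, h2, Complex.norm_real, Real.norm_eq_abs, abs_le]
  constructor <;> linarith [s5_gt, s5_lt]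

theorem pos_mem_Dk : (s5 : ℂ) ∈ Dk g2 := by
  unfold Dk
  rw [Metric.mem_closedBall, dist_eq_norm]
  have h1 : (s5 : ℂ) - g2.1 = ((s5 - 2 : ℝ) : ℂ) := by
    show (s5 : ℂ) - 2 = _
    push_cast
    ring
  have h2 : rad g2 = 1 := by
    unfold rad
    show Real.sqrt ‖(1 : ℂ)‖ = 1
    rw [norm_one, Real.sqrt_one]
  rw [h1, h2, Complex.norm_real, Real.norm_eq_abs, abs_le]
  constructor <;> linarith [s5_gt, s5_lt]

theorem g1_ne_g2 : g1 ≠ g2 := by
  intro h
  have h1 : (-2 : ℂ) = 2 := congrArg Prod.fst h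
  norm_num at h1

theorem lam_gt : 1 < lam := by
  unfold lam
  have := Real.sqrt_nonneg 5
  linarith

theorem img_eq_wd {g : GLC} {l : List (ℂ × ℂ)} (h : ∀ z : OnePoint ℂ, g • z = wd l z)
    (S : Set (OnePoint ℂ)) : img g S = wd l '' S := by
  unfold img
  exact image_congr fun x _ => h x

/-- the words `(g2 g1)^n` -/
theorem powers (h2 : StMove) (𝒜 : Set (ℂ × ℂ)) (hF : Fam 𝒜) (n : ℕ) :
    ∃ l, InA 𝒜 l ∧ wd l '' Ct (1 / 2) = Ct (1 / 2 / lam ^ (2 * n)) := by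
  induction n with
  | zero =>
    refine ⟨[], fun a ha => by simp at ha, ?_⟩
    have : wd ([] : List (ℂ × ℂ)) = id := rfl
    rw [this, image_id]
    simp
  | succ n ih =>
    obtain ⟨l, hl, e⟩ := ih
    refine ⟨g2 :: g1 :: l, InA.cons hF.2.1 (InA.cons hF.1 hl), ?_⟩
    have e1 : wd (g2 :: g1 :: l) '' Ct (1 / 2) = sg g2 '' (sg g1 '' (wd l '' Ct (1 / 2))) := by
      rw [image_image, image_image]
      rfl
    have hp : 0 < 1 / 2 / lam ^ (2 * n) := by
      have := lam_gt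
      positivity
    have hl0 : 0 < lam := by linarith [lam_gt]
    rw [e1, e, (h2.1 _ hp.le).1, if_neg hp.ne', (h2.2 _ (by positivity)).2]
    congr 1
    have : lam ≠ 0 := hl0.ne'
    field_simp
    ring

theorem notClosed_of (h1 : StPar) (h2 : StMove) (h3 : StDich) (h4 : StRed) (h5 : StAdm) :
    StNotClosed := by
  intro 𝒜 hF hcl
  have hA := h5 𝒜 hF
  have hl0 : 0 < lam := by linarith [lam_gt]
  have hmem : ∀ n : ℕ, hh (1 / 2 / lam ^ (2 * n)) ∈
      {h : GLC | ∃ γ, InG 𝒜 γ ∧ img h RR = img γ (Ct (1 / 2))} := by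
    intro n
    obtain ⟨l, hl, e⟩ := powers h2 𝒜 hF n
    obtain ⟨g, hg⟩ := exists_glc_wd (l := l) fun a ha => hA.ne a (hl a ha)
    refine ⟨g, ⟨l, hl, hg⟩, ?_⟩
    rw [← h1.1, img_eq_wd hg, e]
  have hlim : Tendsto (fun n : ℕ => hh (1 / 2 / lam ^ (2 * n))) atTop (𝓝 (hh 0)) := by
    apply (h1.2.1.tendsto 0).comp
    have hp : Tendsto (fun n : ℕ => lam ^ (2 * n)) atTop atTop := by
      have e : (fun n : ℕ => lam ^ (2 * n)) = fun n => (lam ^ 2) ^ n := by
        funext n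
        rw [pow_mul]
      rw [e]
      apply tendsto_pow_atTop_atTop_of_one_lt
      nlinarith [lam_gt]
    exact hp.const_div_atTop _
  have h0 := hcl.mem_of_tendsto hlim (Eventually.of_forall hmem)
  obtain ⟨γ, ⟨l, hl, hγ⟩, e⟩ := h0
  rw [← h1.1, img_eq_wd hγ] at e
  obtain ⟨l', hl', hr, hw⟩ := h4 𝒜 hA l hl
  have e' : Ct 0 = wd l' '' Ct (1 / 2) := by
    rw [e]
    exact image_congr fun x _ => hw x
  rcases h3 𝒜 hF l' hl' hr with hs | ⟨a, ha, hsub⟩
  · have hinj : Function.Injective (wd l') := wd_injective fun a ha => hA.ne a (hl' a ha)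
    have hm : wd l' ((s5 : ℂ) : OnePoint ℂ) ∈ Ct 0 := by
      rcases wd_special hs with ⟨h, _⟩ | ⟨h, _⟩
      · rw [h]; exact pos_mem0
      · rw [h]; exact neg_mem0
    rw [e'] at hm
    obtain ⟨q, hq, hq'⟩ := hm
    rw [hinj hq'] at hq
    exact pos_notMem hq
  · rw [← e'] at hsub
    have hp := mem_up.1 (hsub pos_mem0)
    have hn := mem_up.1 (hsub neg_mem0)
    have hd := hA.disj
    have ha1 : a = g1 := by
      by_contra hne
      exact Set.disjoint_left.1 (hd ha hF.1 hne) hn neg_mem_Dk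
    have ha2 : a = g2 := by
      by_contra hne
      exact Set.disjoint_left.1 (hd ha hF.2.1 hne) hp pos_mem_Dk
    exact g1_ne_g2 (ha1.symm.trans ha2)

/-- membership of a finite point in the image of the extended real line -/
theorem mem_img_RR {h : GLC} {z : ℂ} (hz : (z : OnePoint ℂ) ∈ img h RR) :
    ((h 1 1 * z - h 0 1) * (starRingEnd ℂ) (h 0 0 - h 1 0 * z)).im = 0 := by
  obtain ⟨w, hw, e⟩ := hz
  rcases hw with rfl | ⟨x, rfl⟩
  · have e' : h • (OnePoint.infty : OnePoint ℂ) = (z : OnePoint ℂ) := e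
    rw [OnePoint.smul_infty_eq_ite] at e'
    split_ifs at e' with hc
    · exact absurd e'.symm (OnePoint.coe_ne_infty z)
    · have : h 0 0 / h 1 0 = z := OnePoint.coe_injective e'
      have h2 : h 0 0 - h 1 0 * z = 0 := by
        rw [← this]
        field_simp
        ring
      rw [h2]
      simp
  · have e' : h • ((x : ℂ) : OnePoint ℂ) = (z : OnePoint ℂ) := e
    rw [OnePoint.smul_some_eq_ite] at e'
    split_ifs at e' with hc
    · exact absurd e'.symm (OnePoint.coe_ne_infty z)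
    · have h1 : (h 0 0 * x + h 0 1) / (h 1 0 * x + h 1 1) = z := OnePoint.coe_injective e'
      rw [div_eq_iff hc] at h1
      have h2 : h 1 1 * z - h 0 1 = x * (h 0 0 - h 1 0 * z) := by linear_combination -h1
      rw [h2, mul_assoc, Complex.mul_conj, ← Complex.ofReal_mul, Complex.ofReal_im]

noncomputable def h0 : GLC := mk2 1 (Complex.I / 2) 0 1 (by norm_num)

theorem infty_mem_LL (h6 : StBase) : (OnePoint.infty : OnePoint ℂ) ∈ LL := by
  apply subset_closure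
  refine ⟨Cc 0, ?_, ?_⟩
  · intro F hF
    exact hF.1
  · rw [h6.1]
    exact mem_insert _ _

theorem real_mem_LL (h6 : StBase) (x : ℝ) : ((x : ℂ) : OnePoint ℂ) ∈ LL := by
  apply subset_closure
  refine ⟨Cc 0, ?_, ?_⟩
  · intro F hF
    exact hF.1
  · rw [h6.1]
    exact mem_insert_of_mem _ ⟨x, rfl⟩

theorem cont_entry (i j : Fin 2) : Continuous fun h : GLC => (h i j : ℂ) := by
  have h1 : Continuous fun h : GLC => (h : Matrix (Fin 2) (Fin 2) ℂ) := Units.continuous_val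
  exact h1.matrix_elem i j

theorem notDense_of (h3 : StDich) (h4 : StRed) (h5 : StAdm) (h6 : StBase) : StNotDense := by
  intro 𝒜 hF
  have hA := h5 𝒜 hF
  refine ⟨h0, ⟨OnePoint.infty, ?_, infty_mem_LL h6⟩, ?_⟩
  · refine ⟨OnePoint.infty, mem_insert _ _, ?_⟩
    show h0 • (OnePoint.infty : OnePoint ℂ) = OnePoint.infty
    unfold h0
    rw [mk2_smul_infty, if_pos rfl]
  · -- the neighbourhood
    have c00 := cont_entry 0 0
    have c01 := cont_entry 0 1
    have c10 := cont_entry 1 0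
    have c11 := cont_entry 1 1
    have e00 : h0 0 0 = 1 := rfl
    have e01 : h0 0 1 = Complex.I / 2 := rfl
    have e10 : h0 1 0 = 0 := rfl
    have e11 : h0 1 1 = 1 := rfl
    have o1 : ∀ p : ℝ, ∀ᶠ h in 𝓝 h0,
        ((h 1 1 * (p : ℂ) - h 0 1) * (starRingEnd ℂ) (h 0 0 - h 1 0 * (p : ℂ))).im ≠ 0 := by
      intro p
      have hc : Continuous fun h : GLC =>
          ((h 1 1 * (p : ℂ) - h 0 1) * (starRingEnd ℂ) (h 0 0 - h 1 0 * (p : ℂ))).im := by
        apply Complex.continuous_im.comp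
        apply Continuous.mul
        · exact (c11.mul continuous_const).sub c01
        · exact Complex.continuous_conj.comp (c00.sub (c10.mul continuous_const))
      apply hc.continuousAt.eventually_ne
      rw [e00, e01, e10, e11]
      simp
    have o2 : ∀ᶠ h in 𝓝 h0, h 1 1 ≠ 0 := by
      apply c11.continuousAt.eventually_ne
      rw [e11]
      exact one_ne_zero
    have o3 : ∀ᶠ h in 𝓝 h0, h 1 0 * 5 + h 1 1 ≠ 0 := by
      have hc : Continuous fun h : GLC => h 1 0 * 5 + h 1 1 := (c10.mul continuous_const).add c11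
      apply hc.continuousAt.eventually_ne
      rw [e10, e11]
      norm_num
    have o4 : ∀ᶠ h in 𝓝 h0,
        2 * (‖h 1 0 * 5 + h 1 1‖ * ‖h 1 1‖)
          < ‖(h 0 0 * 5 + h 0 1) * h 1 1 - h 0 1 * (h 1 0 * 5 + h 1 1)‖ := by
      have hc1 : Continuous fun h : GLC => 2 * (‖h 1 0 * 5 + h 1 1‖ * ‖h 1 1‖) :=
        continuous_const.mul ((((c10.mul continuous_const).add c11).norm).mul c11.norm)
      have hc2 : Continuous fun h : GLC =>
          ‖(h 0 0 * 5 + h 0 1) * h 1 1 - h 0 1 * (h 1 0 * 5 + h 1 1)‖ :=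
        ((((c00.mul continuous_const).add c01).mul c11).sub
          (c01.mul ((c10.mul continuous_const).add c11))).norm
      apply hc1.continuousAt.eventually_lt hc2.continuousAt
      rw [e00, e01, e10, e11]
      norm_num
    intro hcl
    rw [mem_closure_iff_frequently] at hcl
    have hfr := hcl.and_eventually ((o1 s5).and ((o1 (-s5)).and (o2.and (o3.and o4))))
    obtain ⟨h, ⟨γ, ⟨l, hl, hγ⟩, e⟩, n1, n2, n3, n4, n5⟩ := hfr.exists
    rw [img_eq_wd hγ] at e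
    obtain ⟨l', hl', hr, hw⟩ := h4 𝒜 hA l hl
    have e' : img h RR = wd l' '' Ct (1 / 2) := by
      rw [e]
      exact image_congr fun x _ => hw x
    rcases h3 𝒜 hF l' hl' hr with hs | ⟨a, ha, hsub⟩
    · have hm : wd l' ((-s5 : ℂ) : OnePoint ℂ) ∈ img h RR := by
        rw [e']
        exact mem_image_of_mem _ neg_mem
      rcases wd_special hs with ⟨_, h'⟩ | ⟨_, h'⟩
      · rw [h'] at hm
        apply n2
        have := mem_img_RR hm
        push_cast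
        exact this
      · rw [h'] at hm
        exact n1 (mem_img_RR hm)
    · rw [← e'] at hsub
      have hr1 : rad a ≤ 1 := (hF.2.2.2.2.1 a ha).2.1
      have m1 : h • (((0 : ℝ) : ℂ) : OnePoint ℂ) ∈ up (Dk a) :=
        hsub ⟨_, mem_insert_of_mem _ ⟨0, rfl⟩, rfl⟩
      have m2 : h • (((5 : ℝ) : ℂ) : OnePoint ℂ) ∈ up (Dk a) :=
        hsub ⟨_, mem_insert_of_mem _ ⟨5, rfl⟩, rfl⟩
      rw [OnePoint.smul_some_eq_ite] at m1 m2
      have k1 : h 1 0 * ((0 : ℝ) : ℂ) + h 1 1 = h 1 1 := by simp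
      have k2 : h 0 0 * ((0 : ℝ) : ℂ) + h 0 1 = h 0 1 := by simp
      have k3 : ((5 : ℝ) : ℂ) = 5 := by norm_num
      rw [k1, k2, if_neg n3, mem_up] at m1
      rw [k3, if_neg n4, mem_up] at m2
      unfold Dk at m1 m2
      rw [Metric.mem_closedBall] at m1 m2
      have hd : dist ((h 0 0 * 5 + h 0 1) / (h 1 0 * 5 + h 1 1)) (h 0 1 / h 1 1) ≤ 2 := by
        have := dist_triangle_right ((h 0 0 * 5 + h 0 1) / (h 1 0 * 5 + h 1 1)) (h 0 1 / h 1 1) a.1
        linarith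
      rw [dist_eq_norm, div_sub_div _ _ n4 n3, norm_div, norm_mul,
        div_le_iff₀ (mul_pos (norm_pos_iff.2 n4) (norm_pos_iff.2 n3))] at hd
      have : (h 0 0 * 5 + h 0 1) * h 1 1 - (h 1 0 * 5 + h 1 1) * h 0 1
          = (h 0 0 * 5 + h 0 1) * h 1 1 - h 0 1 * (h 1 0 * 5 + h 1 1) := by ring
      rw [this] at hd
      linarith

theorem sep (h1 : StPar) (h2 : StBase) : StSep := by
  refine ⟨h1.1 _, ⟨((s5 : ℂ) : OnePoint ℂ), ?_, real_mem_LL h2 s5⟩,
    ⟨OnePoint.infty, ?_, infty_mem_LL h2⟩⟩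
  · refine ⟨((Complex.I / 2 : ℂ) : OnePoint ℂ), ⟨Complex.I / 2, by simp, rfl⟩, ?_⟩
    show hh (1 / 2) • ((Complex.I / 2 : ℂ) : OnePoint ℂ) = _
    unfold hh
    have hd : -Complex.I * (Complex.I / 2) + (1 - ((1 / 2 : ℝ) : ℂ)) = 1 := by
      push_cast
      linear_combination (-1 / 2 : ℂ) * Complex.I_sq
    rw [mk2_smul_coe, hd, if_neg one_ne_zero, div_one]
    congr 1
    push_cast
    linear_combination (s5 / 2 : ℂ) * Complex.I_sq
  · refine ⟨((-Complex.I / 2 : ℂ) : OnePoint ℂ), ⟨-Complex.I / 2, by simp; norm_num, rfl⟩, ?_⟩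
    show hh (1 / 2) • ((-Complex.I / 2 : ℂ) : OnePoint ℂ) = _
    unfold hh
    rw [mk2_smul_coe, if_pos]
    push_cast
    linear_combination (1 / 2 : ℂ) * Complex.I_sq

end Pool.Agent.N634.AP
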